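import Mathlib

namespace Pool.Agent.Results.MP_4caafd_al.Counter

open Set Topology

universe u

/-- A class of topological semigroups. -/
abbrev Cls := ∀ (Y : Type u) [TopologicalSpace Y] [Semigroup Y] [ContinuousMul Y], Prop

/-- T1 topological semigroups. -/
def T1S : Cls.{u} := fun Y _ _ _ => T1Space Y

/-- Hausdorff zero-dimensional topological semigroups. -/
def TzS : Cls.{u} := fun Y _ _ _ =>
  T2Space Y ∧ TopologicalSpace.IsTopologicalBasis {s : Set Y | IsClopen s}

/-- Inclusion of classes. -/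
def Sub (C D : Cls.{u}) : Prop :=
  ∀ (Y : Type u) [TopologicalSpace Y] [Semigroup Y] [ContinuousMul Y], C Y → D Y

/-- `X` is `C`-closed. -/
def Closed (C : Cls.{u}) (X : Type u) [Semigroup X] : Prop :=
  ∀ (Y : Type u) [TopologicalSpace Y] [Semigroup Y] [ContinuousMul Y], C Y →
    ∀ h : X →ₙ* Y, @IsEmbedding X Y ⊥ _ h → IsClosed (range h)

def IsIdeal {X : Type u} [Semigroup X] (I : Set X) : Prop :=
  ∀ x ∈ I, ∀ a, a * x ∈ I ∧ x * a ∈ I

/-- The Rees congruence of an ideal. -/
def rees {X : Type u} [Semigroup X] (I : Set X) (hI : IsIdeal I) : Con X where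
  r x y := (x ∈ I ∧ y ∈ I) ∨ x = y
  iseqv := ⟨fun _ => Or.inr rfl, fun h => h.imp And.symm Eq.symm, by
    rintro x y z (h | rfl) (h' | rfl)
    · exact Or.inl ⟨h.1, h'.2⟩
    · exact Or.inl h
    · exact Or.inl h'
    · exact Or.inr rfl⟩
  mul' := by
    rintro w x y z (h | rfl) (h' | rfl)
    · exact Or.inl ⟨(hI _ h.1 _).2, (hI _ h.2 _).2⟩
    · exact Or.inl ⟨(hI _ h.1 _).2, (hI _ h.2 _).2⟩
    · exact Or.inl ⟨(hI _ h'.1 _).1, (hI _ h'.2 _).1⟩
    · exact Or.inr rfl

def ProjClosed (C : Cls.{u}) (X : Type u) [Semigroup X] : Prop :=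
  ∀ c : Con X, Closed C c.Quotient

def IdealClosed (C : Cls.{u}) (X : Type u) [Semigroup X] : Prop :=
  ∀ (I : Set X) (hI : IsIdeal I), Closed C (rees I hI).Quotient

abbrev J := ULift.{u} ℕ
abbrev G := J.{u} → ZMod 2

/-- Rees matrix semigroup over a Boolean group. -/
@[ext] structure M where
  i : J.{u}
  g : G.{u}
  l : Bool

def p (l : Bool) (j : J.{u}) : G.{u} := if l then Pi.single j 1 else 0

instance : Semigroup M.{u} where
  mul a b := ⟨a.i, a.g + p a.l b.i + b.g, b.l⟩
  mul_assoc a b c := by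
    show M.mk _ _ _ = M.mk _ _ _
    congr 1
    show a.g + p a.l b.i + b.g + p b.l c.i + c.g = a.g + p a.l b.i + (b.g + p b.l c.i + c.g)
    abel

theorem mul_def (a b : M.{u}) : a * b = ⟨a.i, a.g + p a.l b.i + b.g, b.l⟩ := rfl

theorem two (g : G.{u}) : g + g = 0 := by
  funext j
  exact CharTwo.add_self_eq_zero _

section
variable {Y : Type u} [TopologicalSpace Y] [Semigroup Y] [ContinuousMul Y] [T1Space Y]
  (f : M.{u} →ₙ* Y) (hf : ∀ x, ∃ W, IsOpen W ∧ f x ∈ W ∧ ∀ x', f x' ∈ W → x' = x)

theorem fin_cl {S : Set Y} {y : Y} (hy : y ∈ closure S) {U : Set Y} (hU : U ∈ 𝓝 y)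
    (h : (U ∩ S).Finite) : y ∈ S := by
  have : y ∈ closure (U ∩ S) := by
    obtain ⟨V, hVU, hV, hyV⟩ := mem_nhds_iff.1 hU
    exact closure_mono (inter_subset_inter_left _ hVU) (hV.inter_closure ⟨hyV, hy⟩)
  rw [h.isClosed.closure_eq] at this
  exact this.2

def H (g : G.{u}) : M.{u} := ⟨⟨0⟩, g, false⟩

include hf in
theorem Hcl {z : Y} (hz : z ∈ closure (range fun g => f (H g))) : z ∈ range fun g => f (H g) := by
  have h1 : z * z = f (H 0) := by
    have := map_mem_closure (f := fun y : Y => y * y) (t := {f (H 0)}) (by fun_prop) hz (by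
      rintro _ ⟨g, rfl⟩
      show f (H g) * f (H g) = f (H 0)
      rw [← map_mul, mul_def]
      congr 1
      simp [H, p, two])
    simpa using this
  obtain ⟨W, hW, hm, hu⟩ := hf (H 0)
  have hc : ContinuousAt (fun q : Y × Y => q.1 * q.2) (z, z) := by fun_prop
  have := hc.preimage_mem_nhds (hW.mem_nhds (by simpa [h1] using hm))
  rw [nhds_prod_eq, Filter.mem_prod_self_iff] at this
  obtain ⟨U, hU, hUW⟩ := this
  refine fin_cl hz hU (Set.Subsingleton.finite ?_)
  rintro _ ⟨ha, g, rfl⟩ _ ⟨hb, g', rfl⟩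
  have h2 : f (H g) * f (H g') ∈ W := hUW (mk_mem_prod ha hb)
  rw [← map_mul] at h2
  have h3 := congrArg M.g (hu _ h2)
  simp only [mul_def, H, p, Bool.false_eq_true, if_false, add_zero] at h3
  have : g = g' := by
    calc g = g + (g' + g') := by rw [two, add_zero]
      _ = g' := by rw [← add_assoc, h3, zero_add]
  simp [this]

include hf in
theorem main : IsClosed (range f) := by
  refine isClosed_of_closure_subset fun y hy => ?_
  have key : ∀ l : Bool, ∃ g : G.{u}, ∃ U ∈ 𝓝 y, ∀ x, f x ∈ U →
      p l x.i + x.g + p x.l ⟨0⟩ = g := by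
    intro l
    let a : M.{u} := ⟨⟨0⟩, 0, l⟩
    have e : ∀ x : M.{u}, f a * f x * f (H 0) = f (H (p l x.i + x.g + p x.l ⟨0⟩)) := by
      intro x
      rw [← map_mul, ← map_mul]
      congr 1
      simp [mul_def, a, H]
    have hc : Continuous fun y : Y => f a * y * f (H 0) := by fun_prop
    obtain ⟨g, hg⟩ := Hcl f hf (map_mem_closure hc hy (by
      rintro _ ⟨x, rfl⟩
      exact ⟨_, (e x).symm⟩))
    obtain ⟨W, hW, hm, hu⟩ := hf (H g)
    refine ⟨g, _, hc.continuousAt.preimage_mem_nhds (hW.mem_nhds (hg ▸ hm)), fun x hx => ?_⟩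
    have h2 : f a * f x * f (H 0) ∈ W := hx
    rw [e] at h2
    exact congrArg M.g (hu _ h2)
  obtain ⟨g0, U0, h0, k0⟩ := key false
  obtain ⟨g1, U1, h1, k1⟩ := key true
  refine fin_cl hy (Filter.inter_mem h0 h1) ?_
  have : {x : M.{u} | f x ∈ U0 ∩ U1}.Finite := by
    refine Set.Finite.of_finite_image (f := M.l) (Set.toFinite _) ?_
    intro x hx x' hx' hl
    have a0 := k0 x hx.1
    have a1 := k1 x hx.2
    have b0 := k0 x' hx'.1
    have b1 := k1 x' hx'.2
    have hg : x.g = x'.g := by
      rw [← b0, hl] at a0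
      simpa [p] using a0
    rw [← b1, hl, hg] at a1
    have hi : (Pi.single x.i 1 : G.{u}) = Pi.single x'.i 1 := by simpa [p] using a1
    refine M.ext ?_ hg hl
    by_contra hne
    have := congrFun hi x.i
    simp [hne] at this
  refine (this.image f).subset ?_
  rintro _ ⟨hU, x, rfl⟩
  exact ⟨x, hU, rfl⟩

end

/-- One point compactification with the left zero multiplication. -/
def LZ := OnePoint J.{u}

instance : TopologicalSpace LZ.{u} := inferInstanceAs (TopologicalSpace (OnePoint J.{u}))
instance : Semigroup LZ.{u} where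
  mul a _ := a
  mul_assoc _ _ _ := rfl
instance : ContinuousMul LZ.{u} := ⟨continuous_fst⟩

def pr : M.{u} →ₙ* LZ.{u} := ⟨fun x => (x.i : OnePoint J.{u}), fun _ _ => rfl⟩

theorem result : ∃ (X : Type u) (_ : Semigroup X), ∀ C : Cls.{u}, Sub TzS C → Sub C T1S →
    IdealClosed C X ∧ ¬ ProjClosed C X := by
  refine ⟨M, inferInstance, fun C hz h1 => ⟨fun I hI Y _ _ _ hY h he => ?_, fun hP => ?_⟩⟩
  · haveI : T1Space Y := h1 Y hY
    rcases I.eq_empty_or_nonempty with rfl | ⟨x, hx⟩
    · let f : M.{u} →ₙ* Y := ⟨fun x => h (x : (rees ∅ hI).Quotient), fun a b => by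
        rw [← map_mul]; rfl⟩
      have hr : range h = range f := by
        ext y
        constructor
        · rintro ⟨q, rfl⟩
          induction q using Con.induction_on with
          | H x => exact ⟨x, rfl⟩
        · rintro ⟨x, rfl⟩
          exact ⟨_, rfl⟩
      rw [hr]
      refine main f fun x => ?_
      letI : TopologicalSpace (rees ∅ hI).Quotient := ⊥
      haveI : DiscreteTopology (rees ∅ hI).Quotient := ⟨rfl⟩
      obtain ⟨W, hW, hW'⟩ := he.isInducing.isOpen_iff.1
        (isOpen_discrete {(x : (rees ∅ hI).Quotient)})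
      refine ⟨W, hW, ?_, fun x' hx' => ?_⟩
      · show (x : (rees ∅ hI).Quotient) ∈ h ⁻¹' W
        rw [hW']; rfl
      · have : (x' : (rees ∅ hI).Quotient) ∈ h ⁻¹' W := hx'
        rw [hW'] at this
        rcases (Con.eq _).1 this with h | h
        · exact h.1.elim
        · exact h
    · have hall : ∀ y, y ∈ I := by
        intro y
        have := (hI _ (hI x hx ⟨y.i, y.g - x.g - p x.l ⟨0⟩, false⟩).1 ⟨⟨0⟩, 0, y.l⟩).2
        convert this using 1
        refine M.ext rfl ?_ rfl
        show y.g = y.g - x.g - p x.l ⟨0⟩ + p false x.i + x.g + p x.l ⟨0⟩ + 0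
        rw [show p false x.i = 0 from rfl]
        abel
      haveI : Subsingleton (rees I hI).Quotient := ⟨fun a b => by
        induction a using Con.induction_on
        induction b using Con.induction_on
        exact (Con.eq _).2 (Or.inl ⟨hall _, hall _⟩)⟩
      exact (Set.finite_range h).isClosed
  · let h : (Con.ker pr.{u}).Quotient →ₙ* LZ.{u} :=
      ⟨fun q => Con.liftOn q pr fun _ _ h => h, fun a b => by
        induction a using Con.induction_on
        induction b using Con.induction_on
        rfl⟩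
    have hr : range h = range ((↑) : J.{u} → OnePoint J.{u}) := by
      ext y
      constructor
      · rintro ⟨q, rfl⟩
        induction q using Con.induction_on with
        | H x => exact ⟨x.i, rfl⟩
      · rintro ⟨i, rfl⟩
        exact ⟨(⟨i, 0, false⟩ : M.{u}), rfl⟩
    have hz' : TzS LZ.{u} := ⟨inferInstanceAs (T2Space (OnePoint J.{u})),
      isTopologicalBasis_isClopen (X := OnePoint J.{u})⟩
    letI : TopologicalSpace (Con.ker pr.{u}).Quotient := ⊥
    haveI : DiscreteTopology (Con.ker pr.{u}).Quotient := ⟨rfl⟩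
    have hc := hP (Con.ker pr) LZ (hz _ hz') h (by
      refine (IsOpenEmbedding.of_continuous_injective_isOpenMap continuous_of_discreteTopology
        ?_ ?_).isEmbedding
      · intro a b hab
        induction a using Con.induction_on
        induction b using Con.induction_on
        exact (Con.eq _).2 hab
      · intro s _
        have : h '' s = ((↑) : J.{u} → OnePoint J.{u}) '' {i | (i : OnePoint J.{u}) ∈ h '' s} := by
          ext y
          constructor
          · intro hy
            have : y ∈ range h := image_subset_range _ _ hy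
            rw [hr] at this
            obtain ⟨i, rfl⟩ := this
            exact ⟨i, hy, rfl⟩
          · rintro ⟨i, hi, rfl⟩
            exact hi
        rw [this]
        exact OnePoint.isOpen_image_coe.2 (isOpen_discrete _))
    rw [hr] at hc
    haveI : NoncompactSpace J.{u} := not_compactSpace_iff.1 fun _ =>
      not_finite_iff_infinite.2 inferInstance (finite_of_compact_of_discrete (X := J.{u}))
    have hd := OnePoint.denseRange_coe (X := J.{u}) OnePoint.infty
    have hc' : IsClosed (range ((↑) : J.{u} → OnePoint J.{u})) := hc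
    rw [hc'.closure_eq] at hd
    exact OnePoint.infty_notMem_range_coe hd

end Pool.Agent.Results.MP_4caafd_al.Counter
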